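import Mathlib

/-!
# A block of prime length: the combinatorial part
-/

set_option autoImplicit false

open Polynomial Finset

namespace Pool.Agent.Hx18.PB

section cyclic

/-- A rational function on the group of prime order whose sum against a primitive character is
zero is constant. -/
theorem const_of_root {h : ℕ} (hh : h.Prime) (H : ℕ → ℚ) (ζ : ℂ) (hζ : IsPrimitiveRoot ζ h)
    (h0 : ∑ i ∈ range h, (H i : ℂ) * ζ ^ i = 0) : ∀ i < h, H i = H 0 := by
  have hp := Fact.mk hh
  set P : ℚ[X] := ∑ i ∈ range h, C (H i) * X ^ i with hP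
  have hPc : ∀ i < h, P.coeff i = H i := by
    intro i hi
    rw [hP, finsetSum_coeff]
    simp only [coeff_C_mul, coeff_X_pow, mul_ite, mul_one, mul_zero]
    rw [Finset.sum_ite_eq, if_pos (mem_range.2 hi)]
  have hPdeg : P.natDegree < h := by
    refine lt_of_le_of_lt (natDegree_sum_le_of_forall_le (n := h - 1) _ _ fun i hi => ?_) (Nat.sub_lt hh.pos one_pos)
    exact (natDegree_C_mul_X_pow_le _ _).trans (Nat.le_sub_one_of_lt (mem_range.1 hi))
  have hroot : aeval ζ P = 0 := by
    rw [hP, map_sum, ← h0]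
    refine Finset.sum_congr rfl fun i _ => ?_
    simp
  have hmin : minpoly ℚ ζ = cyclotomic h ℚ := (cyclotomic_eq_minpoly_rat hζ hh.pos).symm
  have hdvd : cyclotomic h ℚ ∣ P := by
    rw [← hmin]
    exact minpoly.dvd _ _ hroot
  obtain ⟨Q, hQ⟩ := hdvd
  have hcyc : (cyclotomic h ℚ) = ∑ i ∈ range h, X ^ i := cyclotomic_prime ℚ h
  have hcd : (cyclotomic h ℚ).natDegree = h - 1 := by
    rw [natDegree_cyclotomic, Nat.totient_prime hh]
  by_cases hP0 : P = 0
  · intro i hi
    rw [← hPc i hi, ← hPc 0 hh.pos, hP0]; simp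
  have hQ0 : Q ≠ 0 := by
    rintro rfl
    exact hP0 (by rw [hQ, mul_zero])
  have hQd : Q.natDegree = 0 := by
    have h1 := natDegree_mul (cyclotomic_ne_zero h ℚ) hQ0
    rw [← hQ, hcd] at h1
    omega
  obtain ⟨c, hc⟩ := natDegree_eq_zero.1 hQd
  have hcoef : ∀ i < h, H i = c := by
    intro i hi
    rw [← hPc i hi, hQ, ← hc, mul_comm, coeff_C_mul, hcyc, finsetSum_coeff]
    simp only [coeff_X_pow]
    rw [Finset.sum_ite_eq, if_pos (mem_range.2 hi), mul_one]
  intro i hi
  rw [hcoef i hi, hcoef 0 hh.pos]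

/-- If the cyclic correlation of two rational functions on a group of prime order is constant, then
one of the functions is constant. -/
theorem const_or_const {h : ℕ} (hh : h.Prime) (F H : ZMod h → ℚ) (K : ℚ)
    (hFH : ∀ j : ZMod h, letI := Fact.mk hh; ∑ i, F i * H (i + j) = K) :
    (∀ i, F i = F 0) ∨ (∀ i, H i = H 0) := by
  have := Fact.mk hh
  set ζ : ℂ := Complex.exp (2 * Real.pi * Complex.I / h) with hζ
  have hprim : IsPrimitiveRoot ζ h := Complex.isPrimitiveRoot_exp h hh.ne_zero
  have hprim' : IsPrimitiveRoot ζ⁻¹ h := hprim.inv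
  -- the character
  set χ : ZMod h → ℂ := fun i => ζ ^ i.val with hχ
  have hχa : ∀ i j, χ (i + j) = χ i * χ j := by
    intro i j
    simp only [hχ]
    rw [ZMod.val_add, ← pow_add, ← pow_eq_pow_mod _ hprim.pow_eq_one]
  have hχ0 : ∀ i, χ i ≠ 0 := fun i => pow_ne_zero _ (hprim.ne_zero hh.ne_zero)
  have hsum0 : ∑ i, χ i = 0 := by
    have h1 : ∑ i ∈ range h, ζ ^ i = 0 := hprim.geom_sum_eq_zero hh.one_lt
    rw [← h1]
    refine Finset.sum_bij (fun i _ => i.val) ?_ ?_ ?_ ?_
    · intro i _; exact mem_range.2 (ZMod.val_lt i)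
    · intro i _ j _ hij; exact ZMod.val_injective h hij
    · intro i hi
      refine ⟨(i : ZMod h), mem_univ _, ZMod.val_cast_of_lt (mem_range.1 hi)⟩
    · intro i _; rfl
  have hprod : (∑ i, (F i : ℂ) * (χ i)⁻¹) * (∑ i, (H i : ℂ) * χ i) = 0 := by
    have h1 : ∀ i : ZMod h, ∑ j, (H j : ℂ) * χ j = ∑ j, (H (i + j) : ℂ) * (χ i * χ j) := by
      intro i
      rw [← Equiv.sum_comp (Equiv.addLeft i)]
      refine Finset.sum_congr rfl fun j _ => ?_
      rw [Equiv.coe_addLeft, hχa]
    rw [Finset.sum_mul]
    have h2 : ∀ i : ZMod h, (F i : ℂ) * (χ i)⁻¹ * ∑ j, (H j : ℂ) * χ j =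
        ∑ j, ((F i * H (i + j) : ℚ) : ℂ) * χ j := by
      intro i
      rw [h1 i, Finset.mul_sum]
      refine Finset.sum_congr rfl fun j _ => ?_
      push_cast
      have := hχ0 i
      field_simp
    rw [Finset.sum_congr rfl fun i _ => h2 i, Finset.sum_comm]
    have h3 : ∀ j : ZMod h, ∑ i, ((F i * H (i + j) : ℚ) : ℂ) * χ j = (K : ℂ) * χ j := by
      intro j
      rw [← Finset.sum_mul, ← hFH j]
      push_cast
      rfl
    rw [Finset.sum_congr rfl fun j _ => h3 j, ← Finset.mul_sum, hsum0, mul_zero]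
  have hcv : ∀ (G : ZMod h → ℚ) (ξ : ℂ), ∑ i : ZMod h, (G i : ℂ) * ξ ^ i.val =
      ∑ i ∈ range h, ((fun n : ℕ => G (n : ZMod h)) i : ℂ) * ξ ^ i := by
    intro G ξ
    refine Finset.sum_bij (fun i _ => i.val) ?_ ?_ ?_ ?_
    · intro i _; exact mem_range.2 (ZMod.val_lt i)
    · intro i _ j _ hij; exact ZMod.val_injective h hij
    · intro i hi
      refine ⟨(i : ZMod h), mem_univ _, ZMod.val_cast_of_lt (mem_range.1 hi)⟩
    · intro i _
      simp only [ZMod.natCast_val, ZMod.cast_id', id_eq]
  rcases mul_eq_zero.1 hprod with h1 | h1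
  · left
    have h2 : ∑ i : ZMod h, (F i : ℂ) * (ζ⁻¹) ^ i.val = 0 := by
      rw [← h1]
      refine Finset.sum_congr rfl fun i _ => ?_
      simp only [hχ, inv_pow]
    rw [hcv] at h2
    have h3 := const_of_root hh (fun n : ℕ => F (n : ZMod h)) ζ⁻¹ hprim' h2
    intro i
    have h4 := h3 i.val (ZMod.val_lt i)
    simpa using h4
  · right
    have h2 : ∑ i : ZMod h, (H i : ℂ) * ζ ^ i.val = 0 := h1
    rw [hcv] at h2
    have h3 := const_of_root hh (fun n : ℕ => H (n : ZMod h)) ζ hprim h2
    intro i
    have h4 := h3 i.val (ZMod.val_lt i)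
    simpa using h4

end cyclic


section main

variable {Γ X : Type} [Group Γ] [Fintype X] [DecidableEq X] [MulAction Γ X]

/-- The correlation of the values of a relation and of the weights on the block. -/
theorem dichotomy (ι : X → X) (hι : ∀ x, ι (ι x) = x)
    (hιs : ∀ (γ : Γ) x, ι (γ • x) = γ • ι x) (w : X → ℚ) (hw : ∀ x, w (ι x) = - w x) {h : ℕ}
    (hh : h.Prime) (v : ℚ) (hv : 0 < v) (γ0 : Γ) (b : ZMod h → X) (hb : Function.Injective b)
    (hbw : ∀ x, w x = v ↔ ∃ i, b i = x) (hγb : ∀ i, γ0 • b i = b (i + 1))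
    (hγ : ∀ x, |w x| ≠ v → γ0 • x = x)
    (m : X → ℚ) (hm : ∀ x, m (ι x) = - m x) (hrel : ∀ γ : Γ, ∑ x, m (γ • x) * w x = 0)
    (g1 g2 : Γ) : (∀ i, m (g1 • b i) = m (g1 • b 0)) ∨ (∀ i, w (g2 • b i) = w (g2 • b 0)) := by
  classical
  have := Fact.mk hh
  have hιinj : Function.Injective ι := fun x y h => by
    have := congrArg ι h
    rwa [hι, hι] at this
  have hpow : ∀ (n : ℕ) i, γ0 ^ n • b i = b (i + n) := by
    intro n
    induction n with
    | zero => intro i; simp
    | succ n ih =>
      intro i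
      rw [pow_succ', mul_smul, ih, hγb]
      congr 1
      push_cast
      ring
  have hpowfix : ∀ (n : ℕ) x, |w x| ≠ v → γ0 ^ n • x = x := by
    intro n
    induction n with
    | zero => intro x _; simp
    | succ n ih =>
      intro x hx
      rw [pow_succ', mul_smul, ih x hx, hγ x hx]
  set B : Finset X := univ.image b with hB
  have hmB : ∀ x, x ∈ B ↔ w x = v := by
    intro x
    rw [hbw, hB, mem_image]
    simp
  set B' : Finset X := B.image ι with hB'
  have hmB' : ∀ x, x ∈ B' ↔ w x = -v := by
    intro x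
    rw [hB', mem_image]
    constructor
    · rintro ⟨y, hy, rfl⟩
      rw [hw, (hmB y).1 hy]
    · intro hx
      refine ⟨ι x, (hmB _).2 (by rw [hw, hx, neg_neg]), hι x⟩
  have hdisj : Disjoint B B' := by
    rw [Finset.disjoint_left]
    intro x hx hx'
    rw [hmB] at hx
    rw [hmB', hx] at hx'
    linarith
  have hout : ∀ x, x ∉ B ∪ B' → |w x| ≠ v := by
    intro x hx habs
    apply hx
    rw [mem_union, hmB, hmB']
    rcases abs_eq hv.le |>.1 habs with h | h
    · left; exact h
    · right; exact h
  -- the relation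
  have h1 : ∀ n : ℕ, ∑ x, m (g1 • x) * w (g2 • γ0 ^ n • x) = 0 := by
    intro n
    rw [← hrel (g1 * (g2 * γ0 ^ n)⁻¹)]
    refine Fintype.sum_bijective (fun x => (g2 * γ0 ^ n) • x) (MulAction.bijective _) _ _ ?_
    intro x
    rw [mul_smul g1, inv_smul_smul, mul_smul]
  set K : ℚ := ∑ x ∈ (univ \ (B ∪ B')), m (g1 • x) * w (g2 • x) with hK
  have h2 : ∀ n : ℕ, 2 * ∑ i, m (g1 • b i) * w (g2 • b (i + n)) = -K := by
    intro n
    have h3 := h1 n
    rw [← Finset.sum_sdiff (Finset.subset_univ (B ∪ B')), Finset.sum_union hdisj] at h3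
    have h4 : ∑ x ∈ (univ \ (B ∪ B')), m (g1 • x) * w (g2 • γ0 ^ n • x) = K := by
      refine Finset.sum_congr rfl fun x hx => ?_
      rw [hpowfix n x (hout x (mem_sdiff.1 hx).2)]
    have h5 : ∑ x ∈ B, m (g1 • x) * w (g2 • γ0 ^ n • x) =
        ∑ i, m (g1 • b i) * w (g2 • b (i + n)) := by
      rw [hB, Finset.sum_image fun i _ j _ hij => hb hij]
      refine Finset.sum_congr rfl fun i _ => ?_
      rw [hpow]
    have h6 : ∑ x ∈ B', m (g1 • x) * w (g2 • γ0 ^ n • x) =
        ∑ x ∈ B, m (g1 • x) * w (g2 • γ0 ^ n • x) := by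
      rw [hB', Finset.sum_image fun i _ j _ hij => hιinj hij]
      refine Finset.sum_congr rfl fun x _ => ?_
      rw [← hιs, ← hιs, ← hιs, hm, hw]
      ring
    rw [h4, h6, h5] at h3
    linarith
  refine const_or_const hh (fun i => m (g1 • b i)) (fun i => w (g2 • b i)) (-K / 2) ?_
  intro j
  have h3 := h2 j.val
  simp only [ZMod.natCast_val, ZMod.cast_id', id_eq] at h3
  linarith

omit [DecidableEq X] in
/-- Three pairwise inequivalent translates of the block and their images under the involution. -/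
theorem card_six (ι : X → X) (hι : ∀ x, ι (ι x) = x)
    (hιs : ∀ (γ : Γ) x, ι (γ • x) = γ • ι x) {h : ℕ} (b : Fin h → X)
    (hb : Function.Injective b) (m : X → ℚ) (hm : ∀ x, m (ι x) = - m x)
    (i0 : Fin h) (hcon : ∀ (g : Γ) i, m (g • b i) = m (g • b i0)) (g : Fin 3 → Γ)
    (hne1 : ∀ i j, i ≠ j → ¬ ∀ k : Γ, m (k • g i • b i0) = m (k • g j • b i0))
    (hne2 : ∀ i j, ¬ ∀ k : Γ, m (k • g i • b i0) = - m (k • g j • b i0)) :
    6 * h ≤ Fintype.card X := by
  classical
  let f : Fin 3 × Bool × Fin h → X := fun t =>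
    if t.2.1 then g t.1 • b t.2.2 else ι (g t.1 • b t.2.2)
  have hval : ∀ (t : Fin 3 × Bool × Fin h) (k : Γ), m (k • f t) =
      (if t.2.1 then 1 else -1) * m (k • g t.1 • b i0) := by
    rintro ⟨t, s, i⟩ k
    simp only [f]
    split_ifs with hs
    · rw [← mul_smul, hcon, mul_smul, one_mul]
    · rw [← hιs, hm, ← mul_smul, hcon, mul_smul]
      ring
  have hinj : Function.Injective f := by
    rintro ⟨t, s, i⟩ ⟨t', s', i'⟩ hf
    have h1 : ∀ k : Γ, (if s then 1 else -1) * m (k • g t • b i0) =
        (if s' then 1 else -1) * m (k • g t' • b i0) := by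
      intro k
      rw [← hval ⟨t, s, i⟩ k, hf, hval]
    have hss : s = s' := by
      rcases Bool.eq_false_or_eq_true s with rfl | rfl <;>
        rcases Bool.eq_false_or_eq_true s' with rfl | rfl
      · rfl
      · exfalso
        refine hne2 t t' fun k => ?_
        have h2 := h1 k
        simpa using h2
      · exfalso
        refine hne2 t' t fun k => ?_
        have h2 := h1 k
        simp only [Bool.false_eq_true, if_false, if_true, one_mul] at h2
        linarith
      · rfl
    subst hss
    have htt : t = t' := by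
      by_contra htt
      refine hne1 t t' htt fun k => ?_
      have h2 := h1 k
      split_ifs at h2
      · simpa using h2
      · linarith
    subst htt
    have hii : i = i' := by
      simp only [f] at hf
      split_ifs at hf
      · exact hb (MulAction.injective _ hf)
      · have h3 := congrArg ι hf
        rw [hι, hι] at h3
        exact hb (MulAction.injective _ h3)
    rw [hii]
  have h1 := Fintype.card_le_of_injective f hinj
  rw [Fintype.card_prod, Fintype.card_prod, Fintype.card_bool, Fintype.card_fin,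
    Fintype.card_fin] at h1
  omega

/-- A relation that is constant on all the translates of the block vanishes: a dominating block. -/
theorem zero_of_const_dom (ι : X → X)
    (htr : ∀ x y : X, ∃ γ : Γ, γ • x = y)
    (w : X → ℚ) (hw : ∀ x, w (ι x) = - w x) (hι : ∀ x, ι (ι x) = x)
    (hιs : ∀ (γ : Γ) x, ι (γ • x) = γ • ι x)
    (v : ℚ) (hv : 0 < v) (x0 : X)
    (hdom : ∑ x ∈ univ.filter (fun x => |w x| ≠ v), |w x| <
      2 * (univ.filter fun x => w x = v).card * v)
    (m : X → ℚ) (hm : ∀ x, m (ι x) = - m x) (hrel : ∀ γ : Γ, ∑ x, m (γ • x) * w x = 0)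
    (hcon : ∀ (g : Γ) x, w x = v → m (g • x) = m (g • x0)) : m = 0 := by
  classical
  obtain ⟨x1, -, hx1⟩ := Finset.exists_max_image univ (fun x => |m x|) ⟨x0, mem_univ _⟩
  obtain ⟨γ, hγ⟩ := htr x0 x1
  have hιinj : Function.Injective ι := fun x y h => by
    have := congrArg ι h
    rwa [hι, hι] at this
  set B : Finset X := univ.filter fun x => w x = v with hB
  set B' : Finset X := univ.filter fun x => w x = -v with hB'
  have hBB' : B' = B.image ι := by
    ext x
    simp only [hB, hB', mem_filter, mem_univ, true_and, mem_image]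
    constructor
    · intro hx
      exact ⟨ι x, by rw [hw, hx, neg_neg], hι x⟩
    · rintro ⟨y, hy, rfl⟩
      rw [hw, hy]
  have hdisj : Disjoint B B' := by
    rw [Finset.disjoint_left]
    intro x hx hx'
    simp only [hB, hB', mem_filter, mem_univ, true_and] at hx hx'
    rw [hx] at hx'
    linarith
  have hsd : univ \ (B ∪ B') = univ.filter (fun x => |w x| ≠ v) := by
    ext x
    simp only [hB, hB', mem_sdiff, mem_univ, true_and, mem_union, mem_filter]
    rw [not_iff_not]
    constructor
    · rintro (h | h)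
      · rw [h, abs_of_pos hv]
      · rw [h, abs_neg, abs_of_pos hv]
    · intro h
      exact (abs_eq hv.le).1 h
  have h1 := hrel γ
  rw [← Finset.sum_sdiff (Finset.subset_univ (B ∪ B')), Finset.sum_union hdisj, hsd] at h1
  have h2 : ∑ x ∈ B, m (γ • x) * w x = B.card * (m x1 * v) := by
    rw [← nsmul_eq_mul, ← Finset.sum_const]
    refine Finset.sum_congr rfl fun x hx => ?_
    have hx' : w x = v := (mem_filter.1 hx).2
    rw [hcon γ x hx', hx', hγ]
  have h3 : ∑ x ∈ B', m (γ • x) * w x = B.card * (m x1 * v) := by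
    rw [hBB', Finset.sum_image fun i _ j _ hij => hιinj hij, ← h2]
    refine Finset.sum_congr rfl fun x _ => ?_
    rw [← hιs, hm, hw]; ring
  rw [h2, h3] at h1
  have h4 : 2 * (B.card : ℚ) * v * |m x1| ≤
      (∑ x ∈ univ.filter (fun x => |w x| ≠ v), |w x|) * |m x1| := by
    have h5 : 2 * (B.card : ℚ) * v * m x1 =
        - ∑ x ∈ univ.filter (fun x => |w x| ≠ v), m (γ • x) * w x := by linarith
    have h6 : 2 * (B.card : ℚ) * v * |m x1| = |2 * (B.card : ℚ) * v * m x1| := by
      rw [abs_mul, abs_of_nonneg (a := 2 * (B.card : ℚ) * v)]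
      positivity
    rw [h6, h5, abs_neg, Finset.sum_mul]
    refine (Finset.abs_sum_le_sum_abs _ _).trans (Finset.sum_le_sum fun x _ => ?_)
    rw [abs_mul, mul_comm]
    exact mul_le_mul_of_nonneg_left (hx1 _ (mem_univ _)) (abs_nonneg _)
  have h6 : |m x1| = 0 := by
    by_contra hne
    have hpos : 0 < |m x1| := lt_of_le_of_ne (abs_nonneg _) (Ne.symm hne)
    have h7 := mul_lt_mul_of_pos_right hdom hpos
    linarith
  funext x
  have h7 := hx1 x (mem_univ _)
  rw [h6] at h7
  exact abs_eq_zero.1 (le_antisymm h7 (abs_nonneg _))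

omit [DecidableEq X] in
/-- A relation that is constant on all the translates of the block vanishes: a block that is larger
than a third of the set. -/
theorem zero_of_const_third (ι : X → X)
    (htr : ∀ x y : X, ∃ γ : Γ, γ • x = y)
    (w : X → ℚ) (hw : ∀ x, w (ι x) = - w x) (hι : ∀ x, ι (ι x) = x)
    (hιs : ∀ (γ : Γ) x, ι (γ • x) = γ • ι x) {h : ℕ} (b : Fin h → X)
    (hb : Function.Injective b) (i0 : Fin h) (hcard : Fintype.card X < 6 * h)
    (hsum : ∀ ε : X → ℚ, (∀ x, ε x = 1 ∨ ε x = -1) → (∀ x, ε (ι x) = - ε x) →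
      (∀ i, ε (b i) = ε (b i0)) → ∑ x, ε x * w x ≠ 0)
    (m : X → ℚ) (hm : ∀ x, m (ι x) = - m x) (hrel : ∀ γ : Γ, ∑ x, m (γ • x) * w x = 0)
    (hcon : ∀ (g : Γ) i, m (g • b i) = m (g • b i0)) : m = 0 := by
  classical
  by_contra hm0
  obtain ⟨x1, hx1⟩ : ∃ x, m x ≠ 0 := by
    by_contra hcon'
    push Not at hcon'
    exact hm0 (funext hcon')
  set x0 := b i0 with hx0
  -- the equivalence relation
  set E : X → X → Prop := fun y z => ∀ k : Γ, m (k • y) = m (k • z) with hE
  set E' : X → X → Prop := fun y z => ∀ k : Γ, m (k • y) = - m (k • z) with hE'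
  have hEE' : ∀ y z, E y z → E' y z → False := by
    intro y z h1 h2
    obtain ⟨k, hk⟩ := htr z x1
    have h3 := h1 k
    have h4 := h2 k
    rw [hk] at h3 h4
    apply hx1
    linarith
  have hEsymm : ∀ y z, E y z → E z y := fun y z h k => (h k).symm
  have hE'symm : ∀ y z, E' y z → E' z y := fun y z h k => by rw [h k, neg_neg]
  have hEι : ∀ y z, E y z → E' y (ι z) := fun y z h k => by rw [← hιs, hm, neg_neg, h k]
  have hE'ι : ∀ y z, E' y z → E y (ι z) := fun y z h k => by rw [← hιs, hm, h k]
  have hEtr : ∀ x y z, E x y → E y z → E x z := fun x y z h1 h2 k => by rw [h1 k, h2 k]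
  have hEE'tr : ∀ x y z, E x y → E' y z → E' x z := fun x y z h1 h2 k => by rw [h1 k, h2 k]
  have hE'E'tr : ∀ x y z, E' x y → E' y z → E x z := fun x y z h1 h2 k => by
    rw [h1 k, h2 k, neg_neg]
  have hEg : ∀ (g : Γ) y z, E y z → E (g • y) (g • z) := fun g y z h k => by
    rw [← mul_smul, ← mul_smul, h (k * g)]
  have hE'g : ∀ (g : Γ) y z, E' y z → E' (g • y) (g • z) := fun g y z h k => by
    rw [← mul_smul, ← mul_smul, h (k * g)]
  have hEb : ∀ i, E x0 (b i) := fun i k => (hcon k i).symm
  -- the function of a class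
  set f : X → X → ℚ := fun y x => if E y x then 1 else if E' y x then -1 else 0 with hf
  have hfι : ∀ y x, f y (ι x) = - f y x := by
    intro y x
    simp only [hf]
    by_cases h1 : E y x
    · have h2 : E' y (ι x) := hEι _ _ h1
      have h3 : ¬ E y (ι x) := fun h => hEE' _ _ h h2
      rw [if_neg h3, if_pos h2, if_pos h1]
    · by_cases h2 : E' y x
      · have h3 : E y (ι x) := hE'ι _ _ h2
        rw [if_pos h3, if_neg h1, if_pos h2, neg_neg]
      · have h3 : ¬ E y (ι x) := fun h => h2 (by
          have := hEι _ _ h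
          rwa [hι] at this)
        have h4 : ¬ E' y (ι x) := fun h => h1 (by
          have := hE'ι _ _ h
          rwa [hι] at this)
        rw [if_neg h3, if_neg h4, if_neg h1, if_neg h2, neg_zero]
  by_cases hall : ∀ x, E x0 x ∨ E' x0 x
  · -- one class
    have h1 : ∀ x, m x = m x0 * f x0 x := by
      intro x
      simp only [hf]
      rcases hall x with h2 | h2
      · rw [if_pos h2, mul_one]
        have := h2 1
        rw [one_smul, one_smul] at this
        exact this.symm
      · have h3 : ¬ E x0 x := fun h => hEE' _ _ h h2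
        rw [if_neg h3, if_pos h2]
        have := h2 1
        rw [one_smul, one_smul] at this
        rw [this]; ring
    have h2 := hrel 1
    have h3 : ∑ x, m ((1 : Γ) • x) * w x = m x0 * ∑ x, f x0 x * w x := by
      rw [Finset.mul_sum]
      refine Finset.sum_congr rfl fun x _ => ?_
      rw [one_smul, h1 x]; ring
    rw [h3] at h2
    have h4 : ∑ x, f x0 x * w x ≠ 0 := by
      refine hsum _ ?_ (hfι x0) ?_
      · intro x
        simp only [hf]
        rcases hall x with h5 | h5
        · left; rw [if_pos h5]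
        · right
          rw [if_neg fun h => hEE' _ _ h h5, if_pos h5]
      · intro i
        simp only [hf]
        rw [if_pos (hEb i), if_pos (hEb i0)]
    have h5 : m x0 = 0 := (mul_eq_zero.1 h2).resolve_right h4
    apply hx1
    rw [h1, h5, zero_mul]
  · push Not at hall
    obtain ⟨y2, hy2, hy2'⟩ := hall
    obtain ⟨g2, hg2⟩ := htr x0 y2
    have hcov : ∀ z, E x0 z ∨ E' x0 z ∨ E y2 z ∨ E' y2 z := by
      intro z
      by_contra hz
      push Not at hz
      obtain ⟨hz1, hz2, hz3, hz4⟩ := hz
      obtain ⟨g3, hg3⟩ := htr x0 z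
      have h1 := card_six ι hι hιs b hb m hm i0 hcon ![1, g2, g3] ?_ ?_
      · omega
      · have hyz : ¬ E x0 y2 := hy2
        intro i j hij
        fin_cases i <;> fin_cases j <;> simp only [Fin.isValue, Fin.zero_eta, Fin.mk_one,
          Fin.reduceFinMk, Matrix.cons_val_zero, Matrix.cons_val_one, Matrix.cons_val, one_smul,
          ← hx0, hg2, hg3, ne_eq, not_true_eq_false] at hij ⊢
        · exact hy2
        · exact hz1
        · exact fun h => hy2 (hEsymm _ _ h)
        · exact hz3
        · exact fun h => hz1 (hEsymm _ _ h)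
        · exact fun h => hz3 (hEsymm _ _ h)
      · have hself : ∀ y, ¬ E' y y := fun y h => hEE' y y (fun k => rfl) h
        intro i j
        fin_cases i <;> fin_cases j <;> simp only [Fin.isValue, Fin.zero_eta, Fin.mk_one,
          Fin.reduceFinMk, Matrix.cons_val_zero, Matrix.cons_val_one, Matrix.cons_val, one_smul,
          ← hx0, hg2, hg3]
        · exact hself _
        · exact hy2'
        · exact hz2
        · exact fun h => hy2' (hE'symm _ _ h)
        · exact hself _
        · exact hz4
        · exact fun h => hz2 (hE'symm _ _ h)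
        · exact fun h => hz4 (hE'symm _ _ h)
        · exact hself _
    have hf0 : ∀ x, E x0 x ∨ E' x0 x → f y2 x = 0 := by
      intro x hx
      simp only [hf]
      have h1 : ¬ E y2 x := by
        intro h
        rcases hx with hx | hx
        · exact hy2 (hEtr _ _ _ hx (hEsymm _ _ h))
        · exact hy2' (hE'symm _ _ (hEE'tr _ _ _ h (hE'symm _ _ hx)))
      have h2 : ¬ E' y2 x := by
        intro h
        rcases hx with hx | hx
        · exact hy2' (hEE'tr _ _ _ hx (hE'symm _ _ h))
        · exact hy2 (hE'E'tr _ _ _ hx (hE'symm _ _ h))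
      rw [if_neg h1, if_neg h2]
    have hf0' : ∀ x, E y2 x ∨ E' y2 x → f x0 x = 0 := by
      intro x hx
      simp only [hf]
      have h1 : ¬ E x0 x := by
        intro h
        rcases hx with hx | hx
        · exact hy2 (hEtr _ _ _ h (hEsymm _ _ hx))
        · exact hy2' (hEE'tr _ _ _ h (hE'symm _ _ hx))
      have h2 : ¬ E' x0 x := by
        intro h
        rcases hx with hx | hx
        · exact hy2' (hE'symm _ _ (hEE'tr _ _ _ hx (hE'symm _ _ h)))
        · exact hy2 (hE'E'tr _ _ _ h (hE'symm _ _ hx))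
      rw [if_neg h1, if_neg h2]
    have hmg : ∀ (g : Γ) x, m (g • x) = m (g • x0) * f x0 x + m (g • y2) * f y2 x := by
      intro g x
      rcases hcov x with h1 | h1 | h1 | h1
      · rw [hf0 x (Or.inl h1)]
        simp only [hf, if_pos h1]
        rw [← h1 g]; ring
      · rw [hf0 x (Or.inr h1)]
        simp only [hf, if_pos h1, if_neg fun h => hEE' _ _ h h1]
        rw [h1 g]; ring
      · rw [hf0' x (Or.inl h1)]
        simp only [hf, if_pos h1]
        rw [← h1 g]; ring
      · rw [hf0' x (Or.inr h1)]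
        simp only [hf, if_pos h1, if_neg fun h => hEE' _ _ h h1]
        rw [h1 g]; ring
    set W1 : ℚ := ∑ x, f x0 x * w x with hW1
    set W2 : ℚ := ∑ x, f y2 x * w x with hW2
    have hR : ∀ g : Γ, m (g • x0) * W1 + m (g • y2) * W2 = 0 := by
      intro g
      rw [← hrel g, hW1, hW2, Finset.mul_sum, Finset.mul_sum, ← Finset.sum_add_distrib]
      refine Finset.sum_congr rfl fun x _ => ?_
      rw [hmg g x]; ring
    have hsgn : ∀ c : ℚ, (c = 1 ∨ c = -1) → W1 + c * W2 ≠ 0 := by
      intro c hc
      have h1 : W1 + c * W2 = ∑ x, (f x0 x + c * f y2 x) * w x := by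
        rw [hW1, hW2, Finset.mul_sum, ← Finset.sum_add_distrib]
        refine Finset.sum_congr rfl fun x _ => ?_
        ring
      rw [h1]
      refine hsum _ ?_ ?_ ?_
      · intro x
        rcases hcov x with h1 | h1 | h1 | h1
        · rw [hf0 x (Or.inl h1)]
          simp only [hf, if_pos h1]
          left; ring
        · rw [hf0 x (Or.inr h1)]
          simp only [hf, if_pos h1, if_neg fun h => hEE' _ _ h h1]
          right; ring
        · rw [hf0' x (Or.inl h1)]
          simp only [hf, if_pos h1]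
          rcases hc with rfl | rfl
          · left; ring
          · right; ring
        · rw [hf0' x (Or.inr h1)]
          simp only [hf, if_pos h1, if_neg fun h => hEE' _ _ h h1]
          rcases hc with rfl | rfl
          · right; ring
          · left; ring
      · intro x
        rw [hfι, hfι]; ring
      · intro i
        rw [hf0 _ (Or.inl (hEb i)), hf0 _ (Or.inl (hEb i0))]
        simp only [hf]
        rw [if_pos (hEb i), if_pos (hEb i0)]
    have h1 := hR 1
    have h2 := hR g2
    rw [one_smul, one_smul] at h1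
    rw [hg2] at h2
    have h3 : ∃ c : ℚ, (c = 1 ∨ c = -1) ∧ m (g2 • y2) = c * m x0 := by
      rcases hcov (g2 • y2) with h4 | h4 | h4 | h4
      · refine ⟨1, Or.inl rfl, ?_⟩
        have := h4 1
        rw [one_smul, one_smul] at this
        rw [← this, one_mul]
      · refine ⟨-1, Or.inr rfl, ?_⟩
        have := h4 1
        rw [one_smul, one_smul] at this
        rw [this]; ring
      · exfalso
        apply hy2
        have h5 := hEg g2⁻¹ _ _ h4
        rw [inv_smul_smul] at h5
        rw [← hg2, inv_smul_smul] at h5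
        rwa [hg2] at h5
      · exfalso
        apply hy2'
        have h5 := hE'g g2⁻¹ _ _ h4
        rw [inv_smul_smul] at h5
        rw [← hg2, inv_smul_smul] at h5
        rwa [hg2] at h5
    obtain ⟨c, hc, h4⟩ := h3
    rw [h4] at h2
    have hp := hsgn 1 (Or.inl rfl)
    have hn := hsgn (-1) (Or.inr rfl)
    have hab : m x0 = 0 ∧ m y2 = 0 := by
      set u := m x0
      set t := m y2
      have h5 : (t ^ 2 - c * u ^ 2) * W2 = 0 := by
        have e1 : t * (u * W1 + t * W2) = 0 := by rw [h1, mul_zero]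
        have e2 : u * (t * W1 + c * u * W2) = 0 := by rw [h2, mul_zero]
        linarith
      rcases mul_eq_zero.1 h5 with h6 | h6
      · rcases hc with rfl | rfl
        · have h7 : (t - u) * (t + u) = 0 := by linarith
          rcases mul_eq_zero.1 h7 with h8 | h8
          · have h9 : t = u := by linarith
            rw [h9] at h1
            have h10 : u * (W1 + 1 * W2) = 0 := by linarith
            have h11 := (mul_eq_zero.1 h10).resolve_right hp
            exact ⟨h11, by rw [h9, h11]⟩
          · have h9 : t = -u := by linarith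
            rw [h9] at h1
            have h10 : u * (W1 + -1 * W2) = 0 := by linarith
            have h11 := (mul_eq_zero.1 h10).resolve_right hn
            exact ⟨h11, by rw [h9, h11, neg_zero]⟩
        · have h7 : t ^ 2 + u ^ 2 = 0 := by linarith
          have h8 : t = 0 := by nlinarith [sq_nonneg t, sq_nonneg u]
          have h9 : u = 0 := by nlinarith [sq_nonneg t, sq_nonneg u]
          exact ⟨h9, h8⟩
      · rw [h6] at h1 h2 hp
        have h7 : W1 ≠ 0 := by
          intro h8
          apply hp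
          rw [h8]; ring
        constructor
        · have h8 : u * W1 = 0 := by linarith
          exact (mul_eq_zero.1 h8).resolve_right h7
        · have h8 : t * W1 = 0 := by linarith
          exact (mul_eq_zero.1 h8).resolve_right h7
    apply hx1
    have h5 := hmg 1 x1
    rw [one_smul, one_smul, one_smul, hab.1, hab.2] at h5
    rw [h5]; ring

/-- The weights are not constant on all the translates of the block. -/
theorem not_const_weights (ι : X → X) (hιs : ∀ (γ : Γ) x, ι (γ • x) = γ • ι x)
    (hι : ∀ x, ι (ι x) = x) (htr : ∀ x y : X, ∃ γ : Γ, γ • x = y)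
    (w : X → ℚ) (hw : ∀ x, w (ι x) = - w x) {h : ℕ} (v : ℚ) (hv : 0 < v) (b : Fin h → X)
    (hb : Function.Injective b) (hbw : ∀ i, w (b i) = v) (i0 : Fin h)
    (hoth : ∀ x, |w x| ≠ v → (univ.filter fun y => |w y| = |w x|).card < 2 * h)
    (hex : ∃ x, |w x| ≠ v) : ∃ (g : Γ) (i : Fin h), w (g • b i) ≠ w (g • b i0) := by
  classical
  by_contra hcon
  push Not at hcon
  obtain ⟨z, hz⟩ := hex
  obtain ⟨g, hg⟩ := htr (b i0) z
  have h1 := hoth z hz
  let f : Bool × Fin h → X := fun t => if t.1 then g • b t.2 else ι (g • b t.2)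
  have hinj : Function.Injective f := by
    have key : ∀ i j, g • b i ≠ ι (g • b j) := by
      intro i j hij
      rw [hιs] at hij
      have h2 := MulAction.injective g hij
      have h3 := congrArg w h2
      rw [hw, hbw, hbw] at h3
      linarith
    rintro ⟨s, i⟩ ⟨s', i'⟩ hf
    rcases Bool.eq_false_or_eq_true s with rfl | rfl <;>
      rcases Bool.eq_false_or_eq_true s' with rfl | rfl
    · simp only [f, if_true] at hf
      rw [hb (MulAction.injective _ hf)]
    · simp only [f, if_true, Bool.false_eq_true, if_false] at hf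
      exact absurd hf (key _ _)
    · simp only [f, if_true, Bool.false_eq_true, if_false] at hf
      exact absurd hf.symm (key _ _)
    · simp only [f, Bool.false_eq_true, if_false] at hf
      have h3 := congrArg ι hf
      rw [hι, hι] at h3
      rw [hb (MulAction.injective _ h3)]
  have h2 : univ.image f ⊆ univ.filter fun y => |w y| = |w z| := by
    intro y hy
    obtain ⟨⟨s, i⟩, -, rfl⟩ := mem_image.1 hy
    rw [mem_filter]
    refine ⟨mem_univ _, ?_⟩
    have h3 : w (g • b i) = w z := by rw [hcon, hg]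
    simp only [f]
    split_ifs
    · rw [h3]
    · rw [hw, abs_neg, h3]
  have h3 := card_le_card h2
  rw [card_image_of_injective _ hinj, card_univ, Fintype.card_prod, Fintype.card_bool,
    Fintype.card_fin] at h3
  omega

/-- **Main combinatorial theorem**: no relations if there is a block of prime length. -/
theorem rel_zero_block (ι : X → X) (hι : ∀ x, ι (ι x) = x)
    (hιs : ∀ (γ : Γ) x, ι (γ • x) = γ • ι x) (htr : ∀ x y : X, ∃ γ : Γ, γ • x = y)
    (w : X → ℚ) (hw : ∀ x, w (ι x) = - w x) {h : ℕ}
    (hh : h.Prime) (v : ℚ) (hv : 0 < v) (γ0 : Γ) (b : ZMod h → X) (hb : Function.Injective b)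
    (hbw : ∀ x, w x = v ↔ ∃ i, b i = x) (hγb : ∀ i, γ0 • b i = b (i + 1))
    (hγ : ∀ x, |w x| ≠ v → γ0 • x = x)
    (hoth : ∀ x, |w x| ≠ v → (univ.filter fun y => |w y| = |w x|).card < 2 * h)
    (hex : ∃ x, |w x| ≠ v)
    (hsum : ∀ ε : X → ℚ, (∀ x, ε x = 1 ∨ ε x = -1) → (∀ x, ε (ι x) = - ε x) →
      (∀ x, w x = v → ε x = 1) → ∑ x, ε x * w x ≠ 0)
    (hdom : 6 * h ≤ Fintype.card X →
      ∑ x ∈ univ.filter (fun x => |w x| ≠ v), |w x| < 2 * h * v)
    (m : X → ℚ) (hm : ∀ x, m (ι x) = - m x) (hrel : ∀ γ : Γ, ∑ x, m (γ • x) * w x = 0) :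
    m = 0 := by
  classical
  have := Fact.mk hh
  -- the block, indexed by `Fin h`
  obtain ⟨e⟩ : Nonempty (Fin h ≃ ZMod h) := by
    have h1 : Fintype.card (ZMod h) = h := ZMod.card h
    exact ⟨(Fintype.equivFinOfCardEq h1).symm⟩
  set b' : Fin h → X := fun i => b (e i) with hb'
  have hb'inj : Function.Injective b' := hb.comp e.injective
  set i0 : Fin h := e.symm 0 with hi0
  have hb'w : ∀ i, w (b' i) = v := fun i => (hbw _).2 ⟨_, rfl⟩
  have hb0 : b' i0 = b 0 := by rw [hb', hi0]; simp
  obtain ⟨g2, i, hgi⟩ := not_const_weights ι hιs hι htr w hw v hv b' hb'inj hb'w i0 hoth hex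
  have hcon : ∀ (g1 : Γ) i, m (g1 • b i) = m (g1 • b 0) := by
    intro g1
    rcases dichotomy ι hι hιs w hw hh v hv γ0 b hb hbw hγb hγ m hm hrel g1 g2 with h1 | h1
    · exact h1
    · exfalso
      apply hgi
      rw [hb0, ← h1 (e i)]
  have hcon' : ∀ (g1 : Γ) i, m (g1 • b' i) = m (g1 • b' i0) := by
    intro g1 i
    rw [hb0, ← hcon g1 (e i)]
  by_cases hc : Fintype.card X < 6 * h
  · refine zero_of_const_third ι htr w hw hι hιs b' hb'inj i0 hc ?_ m hm hrel hcon'
    intro ε h1 h2 h3 h4
    rcases h1 (b' i0) with h5 | h5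
    · refine hsum ε h1 h2 ?_ h4
      intro x hx
      obtain ⟨j, rfl⟩ := (hbw x).1 hx
      have h6 := h3 (e.symm j)
      rw [h5] at h6
      rw [← h6, hb']
      simp
    · refine hsum (fun x => - ε x) ?_ ?_ ?_ ?_
      · intro x
        rcases h1 x with h6 | h6
        · right; rw [h6]
        · left; rw [h6, neg_neg]
      · intro x; rw [h2]
      · intro x hx
        obtain ⟨j, rfl⟩ := (hbw x).1 hx
        have h6 := h3 (e.symm j)
        rw [h5] at h6
        have h7 : b' (e.symm j) = b j := by rw [hb']; simp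
        rw [h7] at h6
        rw [h6, neg_neg]
      · simp only [neg_mul, Finset.sum_neg_distrib]
        rw [h4, neg_zero]
  · push Not at hc
    have hcB : (univ.filter fun x => w x = v).card = h := by
      have h1 : (univ.filter fun x => w x = v) = univ.image b := by
        ext x
        rw [mem_filter, mem_image, hbw]
        simp
      rw [h1, card_image_of_injective _ hb, card_univ, ZMod.card]
    refine zero_of_const_dom ι htr w hw hι hιs v hv (b 0) ?_ m hm hrel ?_
    · rw [hcB]
      exact hdom hc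
    · intro g x hx
      obtain ⟨j, rfl⟩ := (hbw x).1 hx
      exact hcon g j

end main

end Pool.Agent.Hx18.PB
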