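import Pool.Agent.Hx18.PP.Nor
import Pool.Agent.Hx18.PB.Abs

/-!
# A block of prime length: the decomposition group
-/

set_option autoImplicit false

open Polynomial Finset NumberField Pool.Agent.W518.TC Pool.Agent.W518.DN

namespace Pool.Agent.Hx18.PB

section group

variable {Γ X : Type} [Group Γ] [MulAction Γ X]

/-- A subgroup that has an orbit of prime length contains an element of prime power order that moves
a given element of this orbit. -/
theorem exists_pElement [Finite Γ] (D : Subgroup Γ) {h : ℕ} (hh : h.Prime) (x0 : X)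
    (horb : Nat.card (MulAction.orbit D x0) = h) :
    ∃ δ ∈ D, δ • x0 ≠ x0 ∧ ∃ k, δ ^ (h ^ k) = 1 := by
  have := Fact.mk hh
  obtain ⟨S⟩ : Nonempty (Sylow h D) := inferInstance
  have h1 : ¬ (S : Subgroup D) ≤ MulAction.stabilizer D x0 := by
    intro hle
    have h2 := Subgroup.index_dvd_of_le hle
    rw [MulAction.index_stabilizer] at h2
    have h3 : (MulAction.orbit D x0).ncard = h := horb
    rw [h3] at h2
    exact S.not_dvd_index h2
  obtain ⟨δ, hδS, hδ⟩ := SetLike.not_le_iff_exists.1 h1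
  refine ⟨δ.1, δ.2, fun h2 => hδ ?_, ?_⟩
  · rw [MulAction.mem_stabilizer_iff]
    exact h2
  · obtain ⟨k, hk⟩ := S.isPGroup' ⟨δ, hδS⟩
    refine ⟨k, ?_⟩
    have h2 := congrArg (fun z : (S : Subgroup D) => ((z : D) : Γ)) hk
    simpa using h2

/-- The orbits of an element of prime power order. -/
theorem period_cases {h : ℕ} (hh : h.Prime) {δ : Γ} {k : ℕ} (hδ : δ ^ (h ^ k) = 1) (x : X) :
    δ • x = x ∨ h ≤ MulAction.period δ x := by
  have h1 : MulAction.period δ x ∣ h ^ k := by
    rw [← MulAction.pow_smul_eq_iff_period_dvd, hδ, one_smul]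
  obtain ⟨j, -, hj⟩ := (Nat.dvd_prime_pow hh).1 h1
  rcases Nat.eq_zero_or_pos j with rfl | hj0
  · left
    rw [pow_zero] at hj
    have h2 : δ ^ 1 • x = x := by
      rw [MulAction.pow_smul_eq_iff_period_dvd, hj]
    rwa [pow_one] at h2
  · right
    rw [hj]
    exact Nat.le_self_pow hj0.ne' h

theorem inj_of_period {δ : Γ} {x : X} {n : ℕ} (hn : n ≤ MulAction.period δ x) :
    Function.Injective fun i : Fin n => δ ^ (i : ℕ) • x := by
  have key : ∀ i j : ℕ, i ≤ j → j < n → δ ^ i • x = δ ^ j • x → i = j := by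
    intro i j hij hj heq
    obtain ⟨d, rfl⟩ := Nat.exists_eq_add_of_le hij
    rw [pow_add, mul_smul] at heq
    have h1 := (MulAction.injective (δ ^ i) heq).symm
    rw [MulAction.pow_smul_eq_iff_period_dvd] at h1
    rcases Nat.eq_zero_or_pos d with h2 | h2
    · omega
    · have := Nat.le_of_dvd h2 h1
      omega
  intro i j hij
  rcases le_total (i : ℕ) j with h | h
  · exact Fin.ext (key _ _ h j.2 hij)
  · exact Fin.ext (key _ _ h i.2 hij.symm).symm

/-- An element of odd prime power order fixes the elements of small orbits. -/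
theorem fix_of_card [Fintype X] (ι : X → X) (hι : ∀ x, ι (ι x) = x)
    (hιs : ∀ (γ : Γ) x, ι (γ • x) = γ • ι x) (hfix : ∀ x, ι x ≠ x) (w : X → ℚ)
    (hw : ∀ x, w (ι x) = - w x) {h : ℕ} (hh : h.Prime) (h2 : h ≠ 2) {δ : Γ} {k : ℕ}
    (hδ : δ ^ (h ^ k) = 1) (hwδ : ∀ x, w (δ • x) = w x) (x : X)
    (hx : (univ.filter fun y => |w y| = |w x|).card < 2 * h) : δ • x = x := by
  classical
  rcases period_cases hh hδ x with h1 | h1
  · exact h1
  exfalso
  have hinj := inj_of_period h1
  have hιinj : Function.Injective ι := fun x y h => by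
    have := congrArg ι h
    rwa [hι, hι] at this
  have hodd : Odd (h ^ k) := (hh.odd_of_ne_two h2).pow
  have key : ∀ i j : ℕ, δ ^ i • x ≠ ι (δ ^ j • x) := by
    intro i j hij
    rw [hιs] at hij
    set c : Γ := (δ ^ i)⁻¹ * δ ^ j with hc
    have hcx : c • ι x = x := by
      rw [hc, mul_smul, ← hij, inv_smul_smul]
    have hcx' : c • x = ι x := by
      have h3 := congrArg ι hcx
      rwa [hιs, hι] at h3
    have hcpow : c ^ (h ^ k) = 1 := by
      have hcom : Commute (δ ^ i)⁻¹ (δ ^ j) :=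
        (((Commute.refl δ).pow_pow i j)).inv_left
      rw [hc, hcom.mul_pow, inv_pow, ← pow_mul, ← pow_mul, mul_comm i, mul_comm j, pow_mul, pow_mul,
        hδ]
      simp
    have hsq : ∀ t : ℕ, (c ^ (2 * t)) • x = x := by
      intro t
      induction t with
      | zero => simp
      | succ t ih =>
        rw [Nat.mul_succ, pow_add, pow_two, mul_smul, mul_smul, hcx', hcx, ih]
    obtain ⟨t, ht⟩ := hodd
    have h3 : c ^ (h ^ k) • x = ι x := by
      rw [ht, pow_succ', mul_smul, hsq, hcx']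
    rw [hcpow, one_smul] at h3
    exact hfix x h3.symm
  let f : Bool × Fin h → X := fun t => if t.1 then δ ^ (t.2 : ℕ) • x else ι (δ ^ (t.2 : ℕ) • x)
  have hfinj : Function.Injective f := by
    rintro ⟨s, i⟩ ⟨s', i'⟩ hf
    rcases Bool.eq_false_or_eq_true s with rfl | rfl <;>
      rcases Bool.eq_false_or_eq_true s' with rfl | rfl
    · simp only [f, if_true] at hf
      rw [hinj hf]
    · simp only [f, if_true, Bool.false_eq_true, if_false] at hf
      exact absurd hf (key _ _)
    · simp only [f, if_true, Bool.false_eq_true, if_false] at hf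
      exact absurd hf.symm (key _ _)
    · simp only [f, Bool.false_eq_true, if_false] at hf
      rw [hinj (hιinj hf)]
  have hwp : ∀ n : ℕ, w (δ ^ n • x) = w x := by
    intro n
    induction n with
    | zero => simp
    | succ n ih => rw [pow_succ', mul_smul, hwδ, ih]
  have h3 : univ.image f ⊆ univ.filter fun y => |w y| = |w x| := by
    intro y hy
    obtain ⟨⟨s, i⟩, -, rfl⟩ := mem_image.1 hy
    rw [mem_filter]
    refine ⟨mem_univ _, ?_⟩
    simp only [f]
    split_ifs
    · rw [hwp]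
    · rw [hw, abs_neg, hwp]
  have h4 := card_le_card h3
  rw [card_image_of_injective _ hfinj, card_univ, Fintype.card_prod, Fintype.card_bool,
    Fintype.card_fin] at h4
  omega

/-- The block is a cycle. -/
theorem exists_cycle [Fintype X] [Finite Γ] (D : Subgroup Γ) {h : ℕ} (hh : h.Prime) (w : X → ℚ)
    (hwD : ∀ δ ∈ D, ∀ x, w (δ • x) = w x) (v : ℚ)
    (hcard : (univ.filter fun x => w x = v).card = h)
    (htrans : ∀ x y, w x = v → w y = v → ∃ δ ∈ D, δ • x = y) :
    ∃ δ ∈ D, (∃ k, δ ^ (h ^ k) = 1) ∧ ∃ b : ZMod h → X, Function.Injective b ∧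
      (∀ x, w x = v ↔ ∃ i, b i = x) ∧ ∀ i, δ • b i = b (i + 1) := by
  classical
  have := Fact.mk hh
  obtain ⟨x0, hx0⟩ : ∃ x0, w x0 = v := by
    have h1 : (univ.filter fun x => w x = v).Nonempty := by
      rw [← card_pos, hcard]
      exact hh.pos
    obtain ⟨x, hx⟩ := h1
    exact ⟨x, (mem_filter.1 hx).2⟩
  have horb : Nat.card (MulAction.orbit D x0) = h := by
    have h1 : MulAction.orbit D x0 = ((univ.filter fun x => w x = v : Finset X) : Set X) := by
      ext y
      rw [MulAction.mem_orbit_iff, mem_coe, mem_filter]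
      constructor
      · rintro ⟨δ, rfl⟩
        refine ⟨mem_univ _, ?_⟩
        rw [Subgroup.smul_def, hwD _ δ.2, hx0]
      · rintro ⟨-, hy⟩
        obtain ⟨δ, hδ, hδy⟩ := htrans x0 y hx0 hy
        exact ⟨⟨δ, hδ⟩, hδy⟩
    rw [h1, ← hcard]
    simp
  obtain ⟨δ, hδD, hδx, k, hδ⟩ := exists_pElement D hh x0 horb
  have hper := (period_cases hh hδ x0).resolve_left hδx
  have hwp : ∀ n : ℕ, w (δ ^ n • x0) = v := by
    intro n
    rw [hwD _ (pow_mem hδD n), hx0]
  have hle : MulAction.period δ x0 ≤ h := by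
    have h1 := inj_of_period (le_refl (MulAction.period δ x0))
    have h2 : univ.image (fun i : Fin (MulAction.period δ x0) => δ ^ (i : ℕ) • x0) ⊆
        univ.filter fun x => w x = v := by
      intro y hy
      obtain ⟨i, -, rfl⟩ := mem_image.1 hy
      exact mem_filter.2 ⟨mem_univ _, hwp _⟩
    have h3 := card_le_card h2
    rw [card_image_of_injective _ h1, card_univ, Fintype.card_fin, hcard] at h3
    exact h3
  have hperh : MulAction.period δ x0 = h := le_antisymm hle hper
  set b : ZMod h → X := fun i => δ ^ i.val • x0 with hb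
  have hbinj : Function.Injective b := by
    intro i j hij
    have h1 := @inj_of_period _ _ _ _ δ x0 h hper ⟨i.val, ZMod.val_lt i⟩ ⟨j.val, ZMod.val_lt j⟩ hij
    exact ZMod.val_injective h (congrArg Fin.val h1)
  refine ⟨δ, hδD, ⟨k, hδ⟩, b, hbinj, ?_, ?_⟩
  · have h1 : univ.image b = univ.filter fun x => w x = v := by
      refine Finset.eq_of_subset_of_card_le ?_ ?_
      · intro y hy
        obtain ⟨i, -, rfl⟩ := mem_image.1 hy
        exact mem_filter.2 ⟨mem_univ _, hwp _⟩
      · rw [hcard, card_image_of_injective _ hbinj, card_univ, ZMod.card]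
    intro x
    have h2 : x ∈ univ.image b ↔ x ∈ univ.filter fun x => w x = v := by rw [h1]
    simp only [mem_image, mem_filter, mem_univ, true_and] at h2
    exact h2.symm
  · intro i
    simp only [hb]
    rw [← mul_smul, ← pow_succ', ZMod.val_add, ZMod.val_one_eq_one_mod, Nat.add_mod_mod]
    have h1 : δ ^ ((i.val + 1) % MulAction.period δ x0) • x0 = δ ^ (i.val + 1) • x0 :=
      MulAction.pow_mod_period_smul (i.val + 1)
    rw [hperh] at h1
    exact h1.symm

end group

section padic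

variable {p : ℕ} [hpp : Fact p.Prime]

/-- The valuation of the constant term of the minimal polynomial. -/
theorem val_eq {y : AlgebraicClosure ℚ_[p]} (hy0 : y ≠ 0) {r : ℚ}
    (hy : nv p y = (p : ℝ) ^ (-(r : ℝ))) :
    (((minpoly ℚ_[p] y).coeff 0).valuation : ℚ) = r * (minpoly ℚ_[p] y).natDegree := by
  set N := (minpoly ℚ_[p] y).natDegree with hN
  have hint : IsIntegral ℚ_[p] y := Algebra.IsIntegral.isIntegral y
  have hN0 : 0 < N := minpoly.natDegree_pos hint
  set c := (minpoly ℚ_[p] y).coeff 0 with hc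
  have hc0 : c ≠ 0 := minpoly.coeff_zero_ne_zero hint hy0
  have h1 : nv p y = ‖c‖ ^ (1 / (N : ℝ)) := by
    rw [nv_apply]
    exact spectralNorm.spectralNorm_eq_norm_coeff_zero_rpow ℚ_[p] (AlgebraicClosure ℚ_[p]) y
  have hp1 : (1 : ℝ) < p := by exact_mod_cast hpp.out.one_lt
  have hp0 : (0 : ℝ) < p := by linarith
  have h2 : ‖c‖ = (p : ℝ) ^ (-(c.valuation : ℝ)) := by
    rw [Padic.norm_eq_zpow_neg_valuation hc0, ← Real.rpow_intCast]
    push_cast
    rfl
  rw [h1, h2, ← Real.rpow_mul hp0.le] at hy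
  have h3 := Real.rpow_right_inj hp0 hp1.ne' |>.1 hy
  have hNR : (N : ℝ) ≠ 0 := by exact_mod_cast hN0.ne'
  have h4 : (c.valuation : ℝ) = r * N := by
    field_simp at h3
    linarith
  exact_mod_cast h4

/-- A rational number whose multiple by `n` is an integer. -/
theorem den_dvd_of_mul {r : ℚ} {n : ℕ} (hn : 0 < n) {z : ℤ} (h : (z : ℚ) = r * n) :
    r.den ∣ n := by
  have h6 : r = (z : ℚ) / ((n : ℤ) : ℚ) := by
    rw [h]
    push_cast
    have : (n : ℚ) ≠ 0 := by exact_mod_cast hn.ne'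
    field_simp
  have h7 := Rat.den_dvd z n
  rw [Rat.divInt_eq_div, ← h6] at h7
  exact_mod_cast h7

/-- The denominator of the valuation divides the degree. -/
theorem den_dvd {y : AlgebraicClosure ℚ_[p]} (hy0 : y ≠ 0) {r : ℚ}
    (hy : nv p y = (p : ℝ) ^ (-(r : ℝ))) : r.den ∣ (minpoly ℚ_[p] y).natDegree :=
  den_dvd_of_mul (minpoly.natDegree_pos (Algebra.IsIntegral.isIntegral y)) (val_eq hy0 hy)

variable {L : Type} [Field L] [NumberField L]

/-- The restriction of the automorphisms of the algebraic closure of `ℚ_p` to a Galois extension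
of the field of rational numbers. -/
theorem exists_rho [IsGalois ℚ L] (ψ : L →+* AlgebraicClosure ℚ_[p]) :
    ∃ ρ : (AlgebraicClosure ℚ_[p] ≃ₐ[ℚ_[p]] AlgebraicClosure ℚ_[p]) →* (L ≃ₐ[ℚ] L),
      ∀ τ z, ψ (ρ τ z) = τ (ψ z) := by
  let : Algebra L (AlgebraicClosure ℚ_[p]) := ψ.toAlgebra
  have : IsScalarTower ℚ L (AlgebraicClosure ℚ_[p]) := IsScalarTower.of_algebraMap_eq fun r => by
    change (algebraMap ℚ (AlgebraicClosure ℚ_[p])) r = ψ (algebraMap ℚ L r)
    simp
  have h0 : ∀ τ : AlgebraicClosure ℚ_[p] ≃ₐ[ℚ_[p]] AlgebraicClosure ℚ_[p],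
      ∃ σ : L ≃ₐ[ℚ] L, ∀ z, ψ (σ z) = τ (ψ z) := by
    intro τ
    let σ' : AlgebraicClosure ℚ_[p] ≃ₐ[ℚ] AlgebraicClosure ℚ_[p] :=
      AlgEquiv.ofRingEquiv (f := (τ : AlgebraicClosure ℚ_[p] ≃+* AlgebraicClosure ℚ_[p]))
        (fun r => by simp)
    exact ⟨σ'.restrictNormal L, fun z => AlgEquiv.restrictNormal_commutes σ' L z⟩
  choose ρ hρ using h0
  refine ⟨MonoidHom.mk' ρ ?_, fun τ z => hρ τ z⟩
  intro τ τ'
  apply AlgEquiv.ext
  intro z
  apply ψ.injective
  rw [hρ, AlgEquiv.mul_apply, AlgEquiv.mul_apply, hρ, hρ]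

end padic

end Pool.Agent.Hx18.PB
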