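import Pool.Agent.Hx18.PB.Loc
import Pool.Agent.Hx18.PP.Fin

/-!
# A block of prime length: Newton polygons
-/

set_option autoImplicit false

open Polynomial Finset NumberField Pool.Agent.W518.TC Pool.Agent.W518.DN Pool.Agent.Hx18.PP

namespace Pool.Agent.Hx18.PB

/-- Signed sums. -/
theorem exists_signs' {J : Type} [DecidableEq J] (t : J → ℚ) (S : Finset J) : ∀ A : Multiset ℚ,
    A.map (fun r => |r|) = S.val.map (fun j => |t j|) →
    ∃ ε : J → ℚ, (∀ j, ε j = 1 ∨ ε j = -1) ∧ A.sum = ∑ j ∈ S, ε j * t j := by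
  induction S using Finset.induction_on with
  | empty =>
    intro A hA
    have h1 : A = 0 := by
      rw [← Multiset.card_eq_zero, ← Multiset.card_map (fun r : ℚ => |r|), hA]
      simp
    exact ⟨fun _ => 1, fun _ => Or.inl rfl, by simp [h1]⟩
  | insert i S hi ih =>
    intro A hA
    rw [Finset.insert_val_of_notMem hi, Multiset.map_cons] at hA
    have h1 : |t i| ∈ A.map (fun r => |r|) := by rw [hA]; exact Multiset.mem_cons_self _ _
    obtain ⟨c, hc, hc'⟩ := Multiset.mem_map.1 h1
    obtain ⟨A', rfl⟩ := Multiset.exists_cons_of_mem hc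
    rw [Multiset.map_cons, hc', Multiset.cons_inj_right] at hA
    obtain ⟨ε, h2, h3⟩ := ih A' hA
    obtain ⟨e, he, hce⟩ : ∃ e : ℚ, (e = 1 ∨ e = -1) ∧ c = e * t i := by
      rcases abs_eq_abs.1 hc' with h4 | h4
      · exact ⟨1, Or.inl rfl, by rw [h4, one_mul]⟩
      · exact ⟨-1, Or.inr rfl, by rw [h4]; ring⟩
    refine ⟨Function.update ε i e, ?_, ?_⟩
    · intro j
      by_cases hj : j = i
      · subst hj
        rw [Function.update_self]; exact he
      · rw [Function.update_of_ne hj]; exact h2 j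
    · rw [Multiset.sum_cons, Finset.sum_insert hi, Function.update_self, h3, hce]
      congr 1
      refine Finset.sum_congr rfl fun j hj => ?_
      rw [Function.update_of_ne (fun h => hi (by rw [← h]; exact hj))]

section count

variable {X : Type} [Fintype X] [DecidableEq X] {g : ℕ} {w : X → ℚ} {t : Fin g → ℚ}

omit [DecidableEq X] in
theorem map_abs (hwt : univ.val.map w = univ.val.map t + univ.val.map (fun j => - t j)) :
    univ.val.map (fun x => |w x|) = univ.val.map (fun j => |t j|) + univ.val.map fun j => |t j| := by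
  have h1 := congrArg (Multiset.map fun r : ℚ => |r|) hwt
  rw [Multiset.map_map, Multiset.map_add, Multiset.map_map, Multiset.map_map] at h1
  refine Eq.trans rfl (h1.trans ?_)
  congr 1
  refine Multiset.map_congr rfl fun j _ => ?_
  simp only [Function.comp_apply, abs_neg]

omit [Fintype X] [DecidableEq X] in
theorem countP_eq {T : Finset X} (f : X → ℚ) (u : ℚ) :
    Multiset.countP (fun r => r = u) (T.val.map f) = (T.filter fun x => f x = u).card := by
  rw [Multiset.countP_map]; rfl

omit [DecidableEq X] in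
theorem card_abs (hwt : univ.val.map w = univ.val.map t + univ.val.map (fun j => - t j)) (u : ℚ) :
    (univ.filter fun x => |w x| = u).card = 2 * (univ.filter fun j => |t j| = u).card := by
  have h1 := congrArg (Multiset.countP fun r => r = u) (map_abs hwt)
  rw [Multiset.countP_add, countP_eq, countP_eq] at h1
  omega

omit [DecidableEq X] in
theorem card_eq_pos (hwt : univ.val.map w = univ.val.map t + univ.val.map (fun j => - t j))
    {v : ℚ} (hv : 0 < v) :
    (univ.filter fun x => w x = v).card = (univ.filter fun j => |t j| = v).card := by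
  have h1 := congrArg (Multiset.countP fun r => r = v) hwt
  rw [Multiset.countP_add, countP_eq, countP_eq, countP_eq, ← card_union_of_disjoint] at h1
  · rw [h1]
    congr 1
    ext j
    simp only [mem_union, mem_filter, mem_univ, true_and]
    rw [abs_eq hv.le]
    constructor
    · rintro (h | h)
      · left; exact h
      · right; linarith
    · rintro (h | h)
      · left; exact h
      · right; linarith
  · rw [Finset.disjoint_left]
    intro j hj hj'
    have e1 := (mem_filter.1 hj).2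
    have e2 := (mem_filter.1 hj').2
    linarith

omit [DecidableEq X] in
theorem card_all (hwt : univ.val.map w = univ.val.map t + univ.val.map (fun j => - t j)) :
    Fintype.card X = 2 * g := by
  have h1 := congrArg Multiset.card hwt
  rw [Multiset.card_add, Multiset.card_map, Multiset.card_map, Multiset.card_map, Finset.card_val,
    Finset.card_val, card_univ, card_univ, Fintype.card_fin] at h1
  omega

omit [Fintype X] [DecidableEq X] in
theorem sum_filter_map {T : Finset X} (f : X → ℚ) (v : ℚ) :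
    ((T.val.map f).filter fun r => r ≠ v) = (T.filter fun x => f x ≠ v).val.map f := by
  rw [Multiset.filter_map]; rfl

omit [DecidableEq X] in
theorem sum_abs (hwt : univ.val.map w = univ.val.map t + univ.val.map (fun j => - t j)) (v : ℚ) :
    ∑ x ∈ univ.filter (fun x => |w x| ≠ v), |w x| =
      2 * ∑ j ∈ univ.filter (fun j => |t j| ≠ v), |t j| := by
  have h1 := congrArg (Multiset.filter fun r => r ≠ v) (map_abs hwt)
  rw [Multiset.filter_add, sum_filter_map, sum_filter_map] at h1
  have h2 := congrArg Multiset.sum h1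
  rw [Multiset.sum_add] at h2
  rw [two_mul]
  exact h2

/-- The signed sums of the weights. -/
theorem signed_sum (ι : X → X) (hι : ∀ x, ι (ι x) = x) (hw : ∀ x, w (ι x) = - w x)
    (hwt : univ.val.map w = univ.val.map t + univ.val.map (fun j => - t j)) (v : ℚ)
    (ε : X → ℚ) (hε : ∀ x, ε x = 1 ∨ ε x = -1) (hει : ∀ x, ε (ι x) = - ε x)
    (hεB : ∀ x, w x = v → ε x = 1) :
    ∃ ε' : Fin g → ℚ, (∀ j, ε' j = 1 ∨ ε' j = -1) ∧ ∑ x, ε x * w x =
      2 * ((univ.filter fun j => |t j| = v).card * v +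
        ∑ j ∈ univ.filter (fun j => |t j| ≠ v), ε' j * t j) := by
  classical
  have hιinj : Function.Injective ι := fun x y h => by
    have := congrArg ι h
    rwa [hι, hι] at this
  set T : Finset X := univ.filter fun x => ε x = 1 with hT
  have hmT : ∀ x, x ∈ T ↔ ε x = 1 := fun x => by simp [hT]
  have hU : (univ : Finset X) = T ∪ T.image ι := by
    ext x
    simp only [mem_univ, mem_union, mem_image, true_iff]
    rcases hε x with h | h
    · left; exact (hmT x).2 h
    · right
      exact ⟨ι x, (hmT _).2 (by rw [hει, h, neg_neg]), hι x⟩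
  have hdisj : Disjoint T (T.image ι) := by
    rw [Finset.disjoint_left]
    intro x hx hx'
    obtain ⟨y, hy, rfl⟩ := mem_image.1 hx'
    rw [hmT] at hx hy
    rw [hει, hy] at hx
    norm_num at hx
  have h1 : ∑ x, ε x * w x = 2 * ∑ x ∈ T, w x := by
    rw [hU, sum_union hdisj, sum_image fun x _ y _ h => hιinj h, two_mul]
    congr 1
    · refine sum_congr rfl fun x hx => ?_
      rw [(hmT x).1 hx, one_mul]
    · refine sum_congr rfl fun x hx => ?_
      rw [hει, hw, (hmT x).1 hx]; ring
  have h2 : T.val.map (fun x => |w x|) = univ.val.map fun j => |t j| := by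
    apply two_nsmul_inj
    rw [← map_abs hwt]
    have h3 : (univ : Finset X).val = T.val + (T.image ι).val := by
      rw [hU, ← Finset.disjUnion_eq_union _ _ hdisj]; rfl
    rw [h3, Multiset.map_add]
    congr 1
    rw [Finset.image_val_of_injOn (hιinj.injOn), Multiset.map_map]
    refine Multiset.map_congr rfl fun x _ => ?_
    simp only [Function.comp_apply]
    rw [hw, abs_neg]
  have h3 : (T.filter fun x => |w x| ≠ v).val.map (fun x => |w x|) =
      (univ.filter fun j => |t j| ≠ v).val.map fun j => |t j| := by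
    have h4 := congrArg (Multiset.filter fun r => r ≠ v) h2
    rwa [sum_filter_map, sum_filter_map] at h4
  have h4 : (T.filter fun x => |w x| = v).card = (univ.filter fun j => |t j| = v).card := by
    have h5 := congrArg (Multiset.countP fun r => r = v) h2
    rwa [countP_eq, countP_eq] at h5
  obtain ⟨ε', h5, h6⟩ := exists_signs' t (univ.filter fun j => |t j| ≠ v)
    ((T.filter fun x => |w x| ≠ v).val.map w) (by rw [Multiset.map_map]; exact h3)
  refine ⟨ε', h5, ?_⟩
  rw [h1, ← h6]
  congr 1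
  rw [← sum_filter_add_sum_filter_not T (fun x => |w x| = v)]
  congr 1
  rw [← h4, ← nsmul_eq_mul, ← sum_const]
  refine sum_congr rfl fun x hx => ?_
  obtain ⟨hx1, hx2⟩ := mem_filter.1 hx
  have hv0 : 0 ≤ v := by rw [← hx2]; exact abs_nonneg _
  rcases (abs_eq hv0).1 hx2 with h7 | h7
  · exact h7
  · have h8 := hεB (ι x) (by rw [hw, h7, neg_neg])
    rw [hει, (hmT x).1 hx1] at h8
    norm_num at h8

end count

section slopes

variable {p : ℕ} [hpp : Fact p.Prime] {a : ℕ} {L : Type} [Field L] [NumberField L]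
  (ψ : L →+* AlgebraicClosure ℚ_[p]) {P : ℤ[X]} {g : ℕ} {s : Fin g → ℚ}

variable [hmf : Fact P.Monic] (hS : Setup (L := L) p a P)

omit hpp in
/-- The roots are simple. -/
theorem roots_simple (hirr : Irreducible P) :
    (P.map (Int.castRingHom L)).roots = univ.val.map fun x : Rt L P => x.1 := by
  have hR : Irreducible (P.map (Int.castRingHom ℚ)) :=
    (IsPrimitive.Int.irreducible_iff_irreducible_map_cast hmf.out.isPrimitive).1 hirr
  have hsep : (P.map (Int.castRingHom ℚ)).Separable := hR.separable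
  have hsepL : (P.map (Int.castRingHom L)).Separable := by
    have h3 : P.map (Int.castRingHom L) = (P.map (Int.castRingHom ℚ)).map (algebraMap ℚ L) := by
      rw [Polynomial.map_map]; congr 1; exact RingHom.ext_int _ _
    rw [h3]
    exact hsep.map
  have h1 : (P.map (Int.castRingHom L)).roots.Nodup := nodup_roots hsepL
  have h2 : (univ.val.map fun x : Rt L P => x.1).Nodup :=
    Multiset.Nodup.map Subtype.val_injective univ.nodup
  refine (Multiset.Nodup.ext h1 h2).2 fun y => ?_
  rw [mem_roots (hmf.out.map _).ne_zero, Multiset.mem_map]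
  constructor
  · intro hy
    exact ⟨⟨y, hy⟩, mem_univ _, rfl⟩
  · rintro ⟨x, -, rfl⟩
    exact x.2

include hS

/-- Rational weights. -/
theorem exists_ratw (hirr : Irreducible P) (hsl : HasSlopes p a s P) :
    ∃ w : Rt L P → ℚ, (∀ x, wt p a ψ x.1 = (w x : ℝ)) ∧
      univ.val.map w = univ.val.map (fun j => (a : ℚ) * (1 - 2 * s j)) +
        univ.val.map (fun j => -((a : ℚ) * (1 - 2 * s j))) := by
  classical
  have h1 := weights ψ hmf.out hS.split hsl
  rw [roots_simple hirr, Multiset.map_map] at h1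
  have h2 : ∀ x : Rt L P, ∃ r : ℚ, wt p a ψ x.1 = (r : ℝ) := by
    intro x
    have h3 : wt p a ψ x.1 ∈ univ.val.map (wt p a ψ ∘ fun x : Rt L P => x.1) :=
      Multiset.mem_map_of_mem (wt p a ψ ∘ fun x : Rt L P => x.1) (mem_univ x)
    rw [h1, Multiset.mem_add] at h3
    rcases h3 with h3 | h3
    · obtain ⟨j, -, hj⟩ := Multiset.mem_map.1 h3
      exact ⟨(a : ℚ) * (1 - 2 * s j), by rw [← hj]; push_cast; rfl⟩
    · obtain ⟨j, -, hj⟩ := Multiset.mem_map.1 h3
      exact ⟨-((a : ℚ) * (1 - 2 * s j)), by rw [← hj]; push_cast; rfl⟩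
  choose w hw using h2
  refine ⟨w, hw, ?_⟩
  apply Multiset.map_injective (f := fun r : ℚ => (r : ℝ)) Rat.cast_injective
  rw [Multiset.map_add, Multiset.map_map, Multiset.map_map, Multiset.map_map]
  have h3 : univ.val.map (wt p a ψ ∘ fun x : Rt L P => x.1) =
      univ.val.map ((fun r : ℚ => (r : ℝ)) ∘ w) :=
    Multiset.map_congr rfl fun x _ => hw x
  rw [← h3, h1]
  congr 1
  · refine Multiset.map_congr rfl fun j _ => ?_
    simp only [Function.comp_apply]
    push_cast; rfl
  · refine Multiset.map_congr rfl fun j _ => ?_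
    simp only [Function.comp_apply]
    push_cast; rfl

omit hS in
/-- The decomposition group acts transitively on the block. -/
theorem trans_block {w : Rt L P → ℚ} (hwx : ∀ x, wt p a ψ x.1 = (w x : ℝ)) {h : ℕ}
    {V : ℚ} (hcard : (univ.filter fun x => w x = V).card = h)
    (hdeg : ∀ x : Rt L P, w x = V → h ∣ (minpoly ℚ_[p] (ψ x.1)).natDegree)
    (ρ : (AlgebraicClosure ℚ_[p] ≃ₐ[ℚ_[p]] AlgebraicClosure ℚ_[p]) →* (L ≃ₐ[ℚ] L))
    (hρ : ∀ τ z, ψ (ρ τ z) = τ (ψ z)) (x y : Rt L P) (hx : w x = V) (hy : w y = V) :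
    ∃ τ, ρ τ • x = y := by
  classical
  have hp1 := one_lt_p (p := p)
  have hp0 : (0 : ℝ) < p := by linarith
  have hwρ : ∀ τ (z : Rt L P), w (ρ τ • z) = w z := by
    intro τ z
    have h1 := hwx (ρ τ • z)
    have h2 := hwx z
    have h3 : wt p a ψ (ρ τ • z).1 = wt p a ψ z.1 := by
      rw [rt_smul]
      unfold wt
      rw [hρ, nv_apply, nv_apply, ← spectralNorm_eq_of_equiv]
    rw [h1, h2] at h3
    exact_mod_cast h3
  set f := minpoly ℚ_[p] (ψ x.1) with hf
  have hint : IsIntegral ℚ_[p] (ψ x.1) := Algebra.IsIntegral.isIntegral _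
  have hN0 : 0 < f.natDegree := minpoly.natDegree_pos hint
  have hhN : h ≤ f.natDegree := Nat.le_of_dvd hN0 (hdeg x hx)
  have hirrf : Irreducible f := minpoly.irreducible hint
  set F := f.map (algebraMap ℚ_[p] (AlgebraicClosure ℚ_[p])) with hF
  have hF0 : F ≠ 0 := (Polynomial.map_ne_zero_iff (algebraMap ℚ_[p] _).injective).2 hirrf.ne_zero
  have hnod : F.roots.Nodup := nodup_roots hirrf.separable.map
  have hcardF : F.roots.toFinset.card = f.natDegree := by
    rw [Multiset.toFinset_card_of_nodup hnod]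
    have h1 : F.Splits := IsAlgClosed.splits F
    rw [splits_iff_card_roots.1 h1, hF, natDegree_map]
  set O : Finset (Rt L P) := univ.filter fun z => ∃ τ, ρ τ • x = z with hO
  have hOB : O ⊆ univ.filter fun z => w z = V := by
    intro z hz
    obtain ⟨-, τ, rfl⟩ := mem_filter.1 hz
    exact mem_filter.2 ⟨mem_univ _, by rw [hwρ, hx]⟩
  have hRO : F.roots.toFinset ⊆ O.image fun z => ψ z.1 := by
    intro r hr
    rw [Multiset.mem_toFinset, mem_roots hF0, IsRoot.def, hF, eval_map_algebraMap] at hr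
    obtain ⟨τ, hτ⟩ := minpoly.exists_algEquiv_of_root' (K := ℚ_[p]) (x := r) (y := ψ x.1)
      (Algebra.IsAlgebraic.isAlgebraic _) hr
    refine mem_image.2 ⟨ρ τ • x, mem_filter.2 ⟨mem_univ _, τ, rfl⟩, ?_⟩
    rw [rt_smul, hρ]
    exact hτ
  have h1 : h ≤ O.card := by
    refine hhN.trans ?_
    rw [← hcardF]
    exact (card_le_card hRO).trans card_image_le
  have h2 := Finset.eq_of_subset_of_card_le hOB (by rw [hcard]; exact h1)
  have h3 : y ∈ O := by
    rw [h2]
    exact mem_filter.2 ⟨mem_univ _, hy⟩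
  exact (mem_filter.1 h3).2

omit hS hmf in
lemma nv_of_wt {x : L} (hx0 : x ≠ 0) {σ : ℚ} (hx : wt p a ψ x = a * (1 - 2 * (σ : ℝ))) :
    nv p (ψ x) = (p : ℝ) ^ (-(((a : ℚ) * σ : ℚ) : ℝ)) := by
  have hp1 := one_lt_p (p := p)
  have hp0 : (0 : ℝ) < p := by linarith
  unfold wt at hx
  have h2 : Real.logb p (nv p (ψ x)) = -(((a : ℚ) * σ : ℚ) : ℝ) := by
    push_cast
    linarith
  rw [← h2, Real.rpow_logb hp0 hp1.ne' (nv_pos ψ hx0)]

omit hS hmf in
/-- The degrees of the `p`-adic factors, from the denominators of the valuations. -/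
lemma deg_of_den {x : L} (hx0 : x ≠ 0) {σ : ℚ} (hx : wt p a ψ x = a * (1 - 2 * (σ : ℝ))) {h : ℕ}
    (hh : h ∣ ((a : ℚ) * σ).den) : h ∣ (minpoly ℚ_[p] (ψ x)).natDegree :=
  hh.trans (den_dvd ((map_ne_zero ψ).2 hx0) (nv_of_wt ψ hx0 hx))

omit hS hmf in
/-- The degrees of the `p`-adic factors, from the theorem of Honda and Tate. -/
lemma deg_of_frob (ha : 0 < a) {R : ℤ[X]} (hirr : Irreducible R) (hmon : R.Monic) {e : ℕ}
    (hfrob : IsFrobPoly p a (R ^ e)) {x : L} (hxr : (R.map (Int.castRingHom L)).IsRoot x)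
    (hx0 : x ≠ 0) {σ : ℚ} (hx : wt p a ψ x = a * (1 - 2 * (σ : ℝ))) {h : ℕ}
    (hσ : h ∣ ((e : ℚ) * σ).den) : h ∣ (minpoly ℚ_[p] (ψ x)).natDegree := by
  have hR : Irreducible (R.map (Int.castRingHom ℚ)) :=
    (IsPrimitive.Int.irreducible_iff_irreducible_map_cast hmon.isPrimitive).1 hirr
  have hint : IsIntegral ℚ_[p] (ψ x) := Algebra.IsIntegral.isIntegral _
  have hdvd : minpoly ℚ_[p] (ψ x) ∣ (R.map (Int.castRingHom ℚ)).map (algebraMap ℚ ℚ_[p]) := by
    apply minpoly.dvd
    have h1 : (R.map (Int.castRingHom (AlgebraicClosure ℚ_[p]))).IsRoot (ψ x) :=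
      (isRoot_map ψ).2 hxr
    rw [IsRoot.def] at h1
    rw [← h1, Polynomial.map_map, aeval_def, eval₂_eq_eval_map, Polynomial.map_map]
    congr 2
  have h1 := hfrob.places (R.map (Int.castRingHom ℚ)) (hmon.map _) hR _ (minpoly.monic hint)
    (minpoly.irreducible hint) hdvd
  have h2 : multiplicity (R.map (Int.castRingHom ℚ)) ((R ^ e).map (Int.castRingHom ℚ)) = e := by
    rw [Polynomial.map_pow]
    exact multiplicity_pow_self hR.ne_zero hR.not_isUnit e
  rw [h2] at h1
  obtain ⟨z, hz⟩ := h1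
  have h3 := val_eq ((map_ne_zero ψ).2 hx0) (nv_of_wt ψ hx0 hx)
  set N := (minpoly ℚ_[p] (ψ x)).natDegree with hN
  have hN0 : 0 < N := minpoly.natDegree_pos hint
  have haQ : (a : ℚ) ≠ 0 := by exact_mod_cast ha.ne'
  have h4 : (z : ℚ) = ((e : ℚ) * σ) * (N : ℚ) := by
    have h5 : ((e : ℤ) : ℚ) * (((minpoly ℚ_[p] (ψ x)).coeff 0).valuation : ℚ) = (a : ℤ) * (z : ℚ) := by
      exact_mod_cast hz
    rw [h3] at h5
    push_cast at h5 ⊢
    apply mul_left_cancel₀ haQ
    linarith
  exact hσ.trans (den_dvd_of_mul hN0 h4)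

/-- The slope of a root of given weight. -/
lemma exists_slope (hsl : HasSlopes p a s P) (x : Rt L P) :
    ∃ j, wt p a ψ x.1 = a * (1 - 2 * ((s j : ℚ) : ℝ)) ∨
      wt p a ψ x.1 = a * (1 - 2 * ((1 - s j : ℚ) : ℝ)) := by
  have h3 : wt p a ψ x.1 ∈ (P.map (Int.castRingHom L)).roots.map (wt p a ψ) :=
    Multiset.mem_map_of_mem _ ((mem_roots (hmf.out.map _).ne_zero).2 x.2)
  rw [weights ψ hmf.out hS.split hsl, Multiset.mem_add] at h3
  rcases h3 with h3 | h3
  · obtain ⟨j, -, hj⟩ := Multiset.mem_map.1 h3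
    exact ⟨j, Or.inl hj.symm⟩
  · obtain ⟨j, -, hj⟩ := Multiset.mem_map.1 h3
    refine ⟨j, Or.inr ?_⟩
    rw [← hj]
    push_cast
    ring

/-- **No relations** if there is a block of odd prime length. -/
theorem noRel_block [IsGalois ℚ L] (hirr : Irreducible P) (ha : 0 < a) (hsl : HasSlopes p a s P)
    {h : ℕ} (hh : h.Prime) (h2 : h ≠ 2) {v : ℚ} (hv : 0 < v)
    (hcard : (univ.filter fun j => |1 - 2 * s j| = v).card = h) (hlt : h < g)
    (hdeg : ∀ x : Rt L P, wt p a ψ x.1 = a * v → h ∣ (minpoly ℚ_[p] (ψ x.1)).natDegree)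
    (hoth : ∀ i, |1 - 2 * s i| ≠ v →
      (univ.filter fun j => |1 - 2 * s j| = |1 - 2 * s i|).card < h)
    (hsum : ∀ ε : Fin g → ℚ, (∀ j, ε j = 1 ∨ ε j = -1) →
      ∑ j ∈ univ.filter (fun j => |1 - 2 * s j| ≠ v), ε j * (1 - 2 * s j) ≠ h * v)
    (hdom : 3 * h ≤ g → ∑ j ∈ univ.filter (fun j => |1 - 2 * s j| ≠ v), |1 - 2 * s j| < h * v) :
    NoRel p a ψ P := by
  classical
  obtain ⟨w, hwx, hwt⟩ := exists_ratw ψ hS hirr hsl
  obtain ⟨ρ, hρ⟩ := exists_rho (p := p) ψ
  have haQ : (0 : ℚ) < a := by exact_mod_cast ha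
  set t : Fin g → ℚ := fun j => (a : ℚ) * (1 - 2 * s j) with ht
  have habst : ∀ j, |t j| = a * |1 - 2 * s j| := fun j => by
    simp only [ht]
    rw [abs_mul, abs_of_pos haQ]
  set V : ℚ := a * v with hV
  have hV0 : 0 < V := mul_pos haQ hv
  have hiff : ∀ j (u : ℚ), |t j| = a * u ↔ |1 - 2 * s j| = u := by
    intro j u
    rw [habst]
    exact ⟨fun h => mul_left_cancel₀ haQ.ne' h, fun h => by rw [h]⟩
  have hfV : (univ.filter fun j => |t j| = V) = univ.filter fun j => |1 - 2 * s j| = v := by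
    ext j
    simp only [mem_filter, mem_univ, true_and]
    exact hiff j v
  have hfV' : (univ.filter fun j => |t j| ≠ V) = univ.filter fun j => |1 - 2 * s j| ≠ v := by
    ext j
    simp only [mem_filter, mem_univ, true_and]
    exact not_congr (hiff j v)
  have hwodd : ∀ x, w (inv hS x) = - w x := by
    intro x
    have h1 := wt_inv ψ hS x
    rw [hwx, hwx] at h1
    exact_mod_cast h1
  have hcX : Fintype.card (Rt L P) = 2 * g := card_all hwt
  have hcB : (univ.filter fun x => w x = V).card = h := by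
    rw [card_eq_pos hwt hV0, hfV, hcard]
  have hdegV : ∀ x : Rt L P, w x = V → h ∣ (minpoly ℚ_[p] (ψ x.1)).natDegree := by
    intro x hx
    refine hdeg x ?_
    rw [hwx, hx, hV]
    push_cast
    rfl
  -- the decomposition group
  have hwρ : ∀ τ (z : Rt L P), w (ρ τ • z) = w z := by
    intro τ z
    have h1 := hwx (ρ τ • z)
    have h2 := hwx z
    have h3 : wt p a ψ (ρ τ • z).1 = wt p a ψ z.1 := by
      rw [rt_smul]
      unfold wt
      rw [hρ, nv_apply, nv_apply, ← spectralNorm_eq_of_equiv]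
    rw [h1, h2] at h3
    exact_mod_cast h3
  obtain ⟨δ, hδD, ⟨k, hδ⟩, b, hb, hbw, hδb⟩ := exists_cycle (X := Rt L P) ρ.range hh w (by
      rintro δ ⟨τ, rfl⟩ x
      exact hwρ τ x) V hcB (by
      intro x y hx hy
      obtain ⟨τ, hτ⟩ := trans_block ψ hwx hcB hdegV ρ hρ x y hx hy
      exact ⟨ρ τ, ⟨τ, rfl⟩, hτ⟩)
  have hwδ : ∀ x, w (δ • x) = w x := by
    obtain ⟨τ, rfl⟩ := hδD
    exact hwρ τ
  -- no fixed points
  have hfix : ∀ x : Rt L P, inv hS x ≠ x := by
    intro x hx
    obtain ⟨σ, hσ⟩ := hS.conj x (b 0)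
    have h1 : inv hS (b 0) = b 0 := by rw [← hσ, inv_smul, hx]
    have h2 := hwodd (b 0)
    rw [h1, (hbw _).2 ⟨0, rfl⟩] at h2
    linarith
  have hoth' : ∀ x, |w x| ≠ V → (univ.filter fun y => |w y| = |w x|).card < 2 * h := by
    intro x hx
    rw [card_abs hwt]
    have h1 : w x ∈ univ.val.map t + univ.val.map (fun j => - t j) := by
      rw [← hwt]
      exact Multiset.mem_map_of_mem w (mem_univ x)
    obtain ⟨i, hi⟩ : ∃ i, |w x| = |t i| := by
      rcases Multiset.mem_add.1 h1 with h1 | h1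
      · obtain ⟨j, -, hj⟩ := Multiset.mem_map.1 h1
        exact ⟨j, by rw [hj]⟩
      · obtain ⟨j, -, hj⟩ := Multiset.mem_map.1 h1
        exact ⟨j, by rw [← hj, abs_neg]⟩
    have h3 : (univ.filter fun j => |t j| = |w x|) =
        univ.filter fun j => |1 - 2 * s j| = |1 - 2 * s i| := by
      ext j
      simp only [mem_filter, mem_univ, true_and]
      rw [hi, habst i]
      exact hiff j _
    have h4 : |1 - 2 * s i| ≠ v := by
      intro h5
      apply hx
      rw [hi, habst, h5]
    have := hoth i h4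
    rw [h3]
    omega
  have hex : ∃ x, |w x| ≠ V := by
    by_contra hcon
    push Not at hcon
    have h1 := card_abs hwt V
    rw [hfV, hcard, Finset.filter_true_of_mem fun x _ => hcon x, card_univ, hcX] at h1
    omega
  intro m hm hrel
  have hmain := rel_zero_block (Γ := L ≃ₐ[ℚ] L) (inv hS) (inv_inv hS) (fun γ x => inv_smul hS γ x)
    hS.conj w hwodd hh V hV0 δ b hb hbw hδb
    (fun x hx => fix_of_card (inv hS) (inv_inv hS) (fun γ x => inv_smul hS γ x) hfix w hwodd hh h2
      hδ hwδ x (hoth' x hx)) hoth' hex ?_ ?_ (fun x => (m x : ℚ)) ?_ ?_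
  · funext x
    have h11 := congrFun hmain x
    simp only [Pi.zero_apply] at h11
    exact_mod_cast h11
  · intro ε hε hει hεB h0
    obtain ⟨ε', h3, h4⟩ := signed_sum (inv hS) (inv_inv hS) hwodd hwt V ε hε hει hεB
    rw [h4, hfV, hfV', hcard] at h0
    refine hsum (fun j => - ε' j) ?_ ?_
    · intro j
      rcases h3 j with h5 | h5
      · right; rw [h5]
      · left; rw [h5, neg_neg]
    · have h5 : (h : ℚ) * V + ∑ j ∈ univ.filter (fun j => |1 - 2 * s j| ≠ v), ε' j * t j = 0 := by
        linarith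
      have h6 : ∑ j ∈ univ.filter (fun j => |1 - 2 * s j| ≠ v), ε' j * t j =
          a * ∑ j ∈ univ.filter (fun j => |1 - 2 * s j| ≠ v), ε' j * (1 - 2 * s j) := by
        rw [mul_sum]
        refine sum_congr rfl fun j _ => ?_
        simp only [ht]; ring
      have h7 : (a : ℚ) * (h * v +
          ∑ j ∈ univ.filter (fun j => |1 - 2 * s j| ≠ v), ε' j * (1 - 2 * s j)) = 0 := by
        rw [mul_add, ← h6, ← h5, hV]; ring
      have h8 := (mul_eq_zero.1 h7).resolve_left haQ.ne'
      simp only [neg_mul, sum_neg_distrib]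
      linarith
  · intro h3
    rw [hcX] at h3
    rw [sum_abs hwt, hfV']
    have h4 := hdom (by omega)
    have h5 : ∑ j ∈ univ.filter (fun j => |1 - 2 * s j| ≠ v), |t j| =
        a * ∑ j ∈ univ.filter (fun j => |1 - 2 * s j| ≠ v), |1 - 2 * s j| := by
      rw [mul_sum]
      exact sum_congr rfl fun j _ => habst j
    rw [h5, hV]
    have h6 := mul_lt_mul_of_pos_left h4 haQ
    linarith
  · intro x
    change ((m (inv hS x) : ℤ) : ℚ) = _
    rw [hm x (inv hS x) rfl]; push_cast; rfl
  · intro γ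
    have h11 := hrel γ⁻¹
    have h12 : ∑ x : Rt L P, (m (γ • x) : ℝ) * wt p a ψ x.1 = 0 := by
      rw [← h11]
      refine (Fintype.sum_bijective (fun x : Rt L P => γ • x) (MulAction.bijective γ) _ _ ?_)
      intro x
      change (m (γ • x) : ℝ) * wt p a ψ x.1 = (m (γ • x) : ℝ) * wt p a ψ (γ⁻¹ (γ x.1))
      congr 2
      exact (γ.symm_apply_apply x.1).symm
    have h13 : ∑ x : Rt L P, (m (γ • x) : ℝ) * wt p a ψ x.1 =
        ((∑ x : Rt L P, (m (γ • x) : ℚ) * w x : ℚ) : ℝ) := by
      push_cast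
      refine sum_congr rfl fun x _ => ?_
      rw [hwx]
    rw [h13] at h12
    exact_mod_cast h12

/-- The degrees of the `p`-adic factors that belong to the block. -/
theorem deg_block (ha : 0 < a) (hirr : Irreducible P) (hsl : HasSlopes p a s P) {e : ℕ}
    (hfrob : IsFrobPoly p a (P ^ e)) {h : ℕ} {v : ℚ}
    (hden : ∀ j, |1 - 2 * s j| = v → h ∣ ((e : ℚ) * s j).den ∨ h ∣ ((a : ℚ) * s j).den)
    (hv : 0 < v) (x : Rt L P) (hx : wt p a ψ x.1 = a * v) :
    h ∣ (minpoly ℚ_[p] (ψ x.1)).natDegree := by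
  have haR : (a : ℝ) ≠ 0 := by exact_mod_cast ha.ne'
  have hx0 := (hS.sym x.1 x.2).1
  obtain ⟨j, hj | hj⟩ := exists_slope ψ hS hsl x
  · have h1 : 1 - 2 * s j = v := by
      have h2 := hj.symm.trans hx
      have h3 := mul_left_cancel₀ haR h2
      exact_mod_cast h3
    rcases hden j (by rw [h1, abs_of_pos hv]) with h2 | h2
    · exact deg_of_frob ψ ha hirr hmf.out hfrob x.2 hx0 hj h2
    · exact deg_of_den ψ hx0 hj h2
  · have h1 : 1 - 2 * s j = -v := by
      have h2 := hj.symm.trans hx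
      have h3 := mul_left_cancel₀ haR h2
      have h4 : 1 - 2 * (1 - s j) = v := by exact_mod_cast h3
      linarith
    rcases hden j (by rw [h1, abs_neg, abs_of_pos hv]) with h2 | h2
    · refine deg_of_frob ψ ha hirr hmf.out hfrob x.2 hx0 hj ?_
      have h4 : (e : ℚ) * (1 - s j) = (e : ℕ) - e * s j := by ring
      rw [h4, Rat.natCast_sub_den]
      exact h2
    · refine deg_of_den ψ hx0 hj ?_
      have h4 : (a : ℚ) * (1 - s j) = (a : ℕ) - a * s j := by ring
      rw [h4, Rat.natCast_sub_den]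
      exact h2

end slopes

end Pool.Agent.Hx18.PB
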